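import Mathlib
import Pool.Agent.V11101.Steer

/-!
# The achievement set of `∑ (-1)^n (1/n, 1/√n)` is the whole plane
-/

open Filter Topology

namespace Pool.Agent.Results.MP_51e3e3_an.AchievementPlane

/-- The achievement set of a sequence `(v_n)_{n ≥ 1}` of points of the plane: all sums
`∑_{n ≥ 1} ε_n v_n` with `ε_n ∈ {0, 1}` for which the series converges (the terms being summed in
their original order). The value `v 0` plays no role. -/
def achievementSet (v : ℕ → ℝ × ℝ) : Set (ℝ × ℝ) :=
  {p | ∃ ε : ℕ → ℝ, (∀ n, ε n = 0 ∨ ε n = 1) ∧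
    Tendsto (fun N : ℕ => ∑ n ∈ Finset.Icc 1 N, ε n • v n) atTop (𝓝 p)}

/-- The sequence `v_n = ((-1)^n / n, (-1)^n / √n)`. -/
noncomputable def vec (n : ℕ) : ℝ × ℝ := ((-1) ^ n / (n : ℝ), (-1) ^ n / √(n : ℝ))

open Pool.Agent.V11101.Steer

/-- the switching quantity at the state `p` -/
noncomputable def sw (a b : ℝ) (K j : ℕ) (p : ℝ × ℝ) : ℝ :=
  (p.2 - b) - 3 / 2 * r K j * ((a - p.1) + (p.2 - b) / r K j)

open Classical in
/-- the state -/
noncomputable def st (a b : ℝ) (K : ℕ) : ℕ → ℝ × ℝ
  | 0 => 0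
  | (j + 1) => st a b K j +
      (if sw a b K j (st a b K j) < 0 then vec (2 * (K + j)) else vec (2 * (K + j) + 1))

open Classical in
/-- the signs -/
noncomputable def eps (a b : ℝ) (K : ℕ) (n : ℕ) : ℝ :=
  if n < 2 * K then 0 else
    if (n - 2 * K) % 2 = 0 then
      (if sw a b K ((n - 2 * K) / 2) (st a b K ((n - 2 * K) / 2)) < 0 then 1 else 0)
    else
      (if sw a b K ((n - 2 * K) / 2) (st a b K ((n - 2 * K) / 2)) < 0 then 0 else 1)

lemma eps_01 (a b : ℝ) (K n : ℕ) : eps a b K n = 0 ∨ eps a b K n = 1 := by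
  unfold eps
  split_ifs <;> simp

lemma vec_even (m : ℕ) : vec (2 * m) = (1 / (2 * (m : ℝ)), 1 / √(2 * (m : ℝ))) := by
  unfold vec
  rw [pow_mul]
  push_cast
  simp

lemma vec_odd (m : ℕ) :
    vec (2 * m + 1) = (-(1 / (2 * (m : ℝ) + 1)), -(1 / √(2 * (m : ℝ) + 1))) := by
  unfold vec
  rw [pow_succ, pow_mul]
  push_cast
  simp [neg_div]

lemma sum_eq (a b : ℝ) (K j : ℕ) :
    ∑ n ∈ Finset.range (2 * K + 2 * j), eps a b K n • vec n = st a b K j := by
  induction j with
  | zero =>
    rw [mul_zero, add_zero]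
    show _ = (0 : ℝ × ℝ)
    refine Finset.sum_eq_zero fun n hn => ?_
    rw [Finset.mem_range] at hn
    unfold eps
    rw [if_pos hn, zero_smul]
  | succ j ih =>
    rw [show 2 * K + 2 * (j + 1) = 2 * K + 2 * j + 1 + 1 by ring, Finset.sum_range_succ,
      Finset.sum_range_succ, ih, add_assoc]
    have h1 : eps a b K (2 * K + 2 * j) = if sw a b K j (st a b K j) < 0 then 1 else 0 := by
      unfold eps
      rw [if_neg (by omega), if_pos (by omega)]
      rw [show (2 * K + 2 * j - 2 * K) / 2 = j by omega]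
    have h2 : eps a b K (2 * K + 2 * j + 1) = if sw a b K j (st a b K j) < 0 then 0 else 1 := by
      unfold eps
      rw [if_neg (by omega), if_neg (by omega)]
      rw [show (2 * K + 2 * j + 1 - 2 * K) / 2 = j by omega]
    rw [h1, h2]
    show _ = st a b K j + _
    congr 1
    rw [show 2 * K + 2 * j = 2 * (K + j) by ring]
    split_ifs <;> simp

lemma vec_zero : vec 0 = 0 := by
  unfold vec
  simp

lemma sum_Icc (ε : ℕ → ℝ) (N : ℕ) :
    ∑ n ∈ Finset.Icc 1 N, ε n • vec n = ∑ n ∈ Finset.range (N + 1), ε n • vec n := by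
  rw [Finset.range_eq_Ico, Finset.sum_eq_sum_Ico_succ_bot (Nat.succ_pos N), vec_zero, smul_zero,
    zero_add]
  rfl

lemma vec_tendsto : Tendsto (fun n => ‖vec n‖) atTop (𝓝 0) := by
  have h1 : Tendsto (fun n : ℕ => 1 / √(n : ℝ)) atTop (𝓝 0) := by
    simp only [one_div]
    exact tendsto_inv_atTop_zero.comp
      (Real.tendsto_sqrt_atTop.comp tendsto_natCast_atTop_atTop)
  have h2 : Tendsto (fun n : ℕ => 1 / (n : ℝ)) atTop (𝓝 0) := tendsto_one_div_atTop_nhds_zero_nat
  have h3 := h2.max h1
  rw [max_self] at h3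
  refine h3.congr fun n => ?_
  unfold vec
  rw [Prod.norm_def]
  simp only [norm_div, norm_pow, norm_neg, norm_one, one_pow]
  rw [Real.norm_of_nonneg (Nat.cast_nonneg n), Real.norm_of_nonneg (Real.sqrt_nonneg _)]

lemma dyn (a b : ℝ) (K : ℕ) (hK : 100 * (1 + |b|) ≤ r K 0) :
    Dyn K (fun j => (st a b K j).2 - b)
      (fun j => (a - (st a b K j).1) + ((st a b K j).2 - b) / r K j) := by
  have hb := abs_nonneg b
  have hrm : Monotone (r K) := monotone_nat_of_le_succ (Dyn.r_mono K)
  have hr : ∀ j, 100 ≤ r K j := fun j => by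
    have := hrm (Nat.zero_le j)
    linarith
  have hrs : ∀ j, √(2 * ((K + j : ℕ) : ℝ)) = r K j := fun j => by
    unfold r; push_cast; rfl
  have hrq : ∀ j, (2 * ((K + j : ℕ) : ℝ)) = r K j ^ 2 := fun j => by
    rw [r_sq]; push_cast; rfl
  have hodd : ∀ j, ∃ q : ℝ, r K j ≤ q ∧ q ≤ r K (j + 1) ∧ q ^ 2 = r K j ^ 2 + 1 ∧
      q ≤ 1001 / 1000 * r K j ∧ √(2 * ((K + j : ℕ) : ℝ) + 1) = q := by
    intro j
    refine ⟨√(2 * ((K + j : ℕ) : ℝ) + 1), ?_, ?_, ?_, ?_, rfl⟩
    · rw [← hrs j]; exact Real.sqrt_le_sqrt (by linarith)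
    · rw [← hrs (j + 1)]; exact Real.sqrt_le_sqrt (by push_cast; linarith)
    · rw [Real.sq_sqrt (by positivity), hrq j]
    · rw [hrq j]
      have := hr j
      refine Real.sqrt_le_iff.2 ⟨by linarith, ?_⟩
      nlinarith
  have key : ∀ j,
      (sw a b K j (st a b K j) < 0 ∧
        (st a b K (j + 1)).1 = (st a b K j).1 + 1 / r K j ^ 2 ∧
        (st a b K (j + 1)).2 = (st a b K j).2 + 1 / r K j) ∨
      (¬ sw a b K j (st a b K j) < 0 ∧ ∃ q : ℝ, r K j ≤ q ∧ q ≤ r K (j + 1) ∧
        q ^ 2 = r K j ^ 2 + 1 ∧ q ≤ 1001 / 1000 * r K j ∧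
        (st a b K (j + 1)).1 = (st a b K j).1 - 1 / q ^ 2 ∧
        (st a b K (j + 1)).2 = (st a b K j).2 - 1 / q) := by
    intro j
    by_cases h : sw a b K j (st a b K j) < 0
    · left
      have e1 : st a b K (j + 1) = st a b K j + vec (2 * (K + j)) := by
        show st a b K j + (if sw a b K j (st a b K j) < 0 then _ else _) = _
        rw [if_pos h]
      rw [e1, vec_even, hrs, hrq]
      exact ⟨h, rfl, rfl⟩
    · right
      have e1 : st a b K (j + 1) = st a b K j + vec (2 * (K + j) + 1) := by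
        show st a b K j + (if sw a b K j (st a b K j) < 0 then _ else _) = _
        rw [if_neg h]
      obtain ⟨q, q1, q2, q3, q4, q5⟩ := hodd j
      refine ⟨h, q, q1, q2, q3, q4, ?_, ?_⟩
      · rw [e1, vec_odd, hrq, q3]
        show (st a b K j).1 + -(1 / (r K j ^ 2 + 1)) = _
        ring
      · rw [e1, vec_odd, q5]
        show (st a b K j).2 + -(1 / q) = _
        ring
  refine ⟨by linarith, ?_, fun j => ?_, fun j => ?_, fun j h => ?_, fun j h => ?_, fun j => ?_⟩
  · show |(0 : ℝ × ℝ).2 - b| ≤ _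
    rw [Prod.snd_zero, zero_sub, abs_neg]
    linarith
  · have := hr j
    rcases key j with ⟨-, -, h2⟩ | ⟨-, q, q1, q2, q3, q4, -, h2⟩
    · show |(st a b K (j + 1)).2 - b - ((st a b K j).2 - b)| ≤ _
      rw [h2, show (st a b K j).2 + 1 / r K j - b - ((st a b K j).2 - b) = 1 / r K j by ring,
        abs_of_nonneg (by positivity)]
    · have hq0 : 0 < q := by linarith
      show |(st a b K (j + 1)).2 - b - ((st a b K j).2 - b)| ≤ _
      rw [h2, show (st a b K j).2 - 1 / q - b - ((st a b K j).2 - b) = -(1 / q) by ring, abs_neg,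
        abs_of_nonneg (by positivity)]
      exact one_div_le_one_div_of_le (by linarith) q1
  · have := hr j
    rcases key j with ⟨-, -, h2⟩ | ⟨-, q, q1, q2, q3, q4, -, h2⟩
    · show _ ≤ |(st a b K (j + 1)).2 - b - ((st a b K j).2 - b)|
      rw [h2, show (st a b K j).2 + 1 / r K j - b - ((st a b K j).2 - b) = 1 / r K j by ring,
        abs_of_nonneg (by positivity)]
      exact div_le_div_of_nonneg_right (by norm_num) (by linarith)
    · have hq0 : 0 < q := by linarith
      show _ ≤ |(st a b K (j + 1)).2 - b - ((st a b K j).2 - b)|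
      rw [h2, show (st a b K j).2 - 1 / q - b - ((st a b K j).2 - b) = -(1 / q) by ring, abs_neg,
        abs_of_nonneg (by positivity), div_le_div_iff₀ (by linarith) (by linarith)]
      linarith
  · rcases key j with ⟨-, -, h2⟩ | ⟨h', -⟩
    · show (st a b K j).2 - b ≤ (st a b K (j + 1)).2 - b
      have := hr j
      have : 0 ≤ 1 / r K j := by positivity
      rw [h2]; linarith
    · exact absurd h h'
  · rcases key j with ⟨h', -⟩ | ⟨-, q, q1, q2, q3, q4, -, h2⟩
    · exact absurd h (not_lt.2 (le_of_lt h'))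
    · show (st a b K (j + 1)).2 - b ≤ (st a b K j).2 - b
      have := hr j
      have hq0 : 0 < q := by linarith
      have : 0 ≤ 1 / q := by positivity
      rw [h2]; linarith
  · have hrj := hr j
    have hrj1 := hr (j + 1)
    have hmono := Dyn.r_mono K j
    have hsq := r_succ_sq K j
    rcases key j with ⟨-, h1, h2⟩ | ⟨-, q, q1, q2, q3, q4, h1, h2⟩
    · rw [h1, h2]
      set ρ := r K j with hρ
      set R := r K (j + 1) with hR
      have e : (a - ((st a b K j).1 + 1 / ρ ^ 2) + ((st a b K j).2 + 1 / ρ - b) / R -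
          (a - (st a b K j).1 + ((st a b K j).2 - b) / ρ) +
          ((st a b K j).2 - b) * (1 / ρ - 1 / R)) = -((R - ρ) / (ρ ^ 2 * R)) := by
        have : ρ ≠ 0 := by linarith
        have : R ≠ 0 := by linarith
        field_simp
        ring
      rw [e, abs_neg, abs_of_nonneg (by
        have : 0 ≤ R - ρ := by linarith
        positivity), div_le_div_iff₀ (by positivity) (by positivity), one_mul]
      have h3 : (R - ρ) * ρ ≤ 1 := by nlinarith
      calc (R - ρ) * ρ ^ 4 = ((R - ρ) * ρ) * (ρ ^ 2 * ρ) := by ring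
        _ ≤ 1 * (ρ ^ 2 * R) := by gcongr
        _ = ρ ^ 2 * R := one_mul _
    · rw [h1, h2]
      set ρ := r K j with hρ
      set R := r K (j + 1) with hR
      have e : (a - ((st a b K j).1 - 1 / q ^ 2) + ((st a b K j).2 - 1 / q - b) / R -
          (a - (st a b K j).1 + ((st a b K j).2 - b) / ρ) +
          ((st a b K j).2 - b) * (1 / ρ - 1 / R)) = (R - q) / (q ^ 2 * R) := by
        have : ρ ≠ 0 := by linarith
        have : R ≠ 0 := by linarith
        have : q ≠ 0 := by linarith
        field_simp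
        ring
      have hq0 : 0 < q := by linarith
      rw [e, abs_of_nonneg (by
        have : 0 ≤ R - q := by linarith
        positivity), div_le_div_iff₀ (by positivity) (by positivity), one_mul]
      have h3 : (R - q) * ρ ≤ 1 := by nlinarith
      calc (R - q) * ρ ^ 4 = ((R - q) * ρ) * (ρ ^ 2 * ρ) := by ring
        _ ≤ 1 * (q ^ 2 * R) := by gcongr
        _ = q ^ 2 * R := one_mul _

lemma st_tendsto (a b : ℝ) (K : ℕ) (hK : 100 * (1 + |b|) ≤ r K 0) :
    Tendsto (st a b K) atTop (𝓝 (a, b)) := by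
  have D := dyn a b K hK
  obtain ⟨h1, h2⟩ := D.main
  have h3 : Tendsto (fun j => (st a b K j).2) atTop (𝓝 b) := by
    have := h1.add_const b
    simpa using this
  have hinv : Tendsto (fun j => (r K j)⁻¹) atTop (𝓝 0) := by
    refine tendsto_inv_atTop_zero.comp ?_
    unfold r
    refine Real.tendsto_sqrt_atTop.comp ?_
    refine Tendsto.const_mul_atTop (by norm_num) ?_
    exact tendsto_atTop_add_const_left _ _ tendsto_natCast_atTop_atTop
  have h4 : Tendsto (fun j => (st a b K j).1) atTop (𝓝 a) := by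
    have h5 : Tendsto (fun j => ((st a b K j).2 - b) / r K j) atTop (𝓝 0) := by
      have := h1.mul hinv
      simpa [div_eq_mul_inv] using this
    have h6 := (tendsto_const_nhds (x := a)).sub (h2.sub h5)
    simpa using h6
  exact h4.prodMk_nhds h3

theorem result : achievementSet vec = Set.univ := by
  refine Set.eq_univ_of_forall ?_
  rintro ⟨a, b⟩
  -- choose `K`
  obtain ⟨K, hK⟩ : ∃ K : ℕ, 100 * (1 + |b|) ≤ r K 0 := by
    obtain ⟨K, hK⟩ := exists_nat_ge ((100 * (1 + |b|)) ^ 2)
    refine ⟨K, ?_⟩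
    unfold r
    refine Real.le_sqrt_of_sq_le ?_
    have : (0 : ℝ) ≤ K := Nat.cast_nonneg _
    push_cast
    linarith
  refine ⟨eps a b K, eps_01 a b K, ?_⟩
  have hst := st_tendsto a b K hK
  -- partial sums over `range`
  have hQ : Tendsto (fun M => ∑ n ∈ Finset.range M, eps a b K n • vec n) atTop (𝓝 (a, b)) := by
    set jM : ℕ → ℕ := fun M => (M - 2 * K) / 2 with hjM
    have hj : Tendsto jM atTop atTop := by
      refine tendsto_atTop.2 fun c => ?_
      filter_upwards [eventually_ge_atTop (2 * K + 2 * c)] with M h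
      simp only [hjM]
      omega
    have h1 : Tendsto (fun M => st a b K (jM M)) atTop (𝓝 (a, b)) := hst.comp hj
    have h2 : Tendsto (fun M => (∑ n ∈ Finset.range M, eps a b K n • vec n) - st a b K (jM M))
        atTop (𝓝 0) := by
      refine squeeze_zero_norm' (a := fun M => ‖vec (M - 1)‖) ?_ ?_
      · filter_upwards [eventually_ge_atTop (2 * K)] with M hM
        rcases Nat.even_or_odd' (M - 2 * K) with ⟨c, hc | hc⟩
        · have e1 : M = 2 * K + 2 * c := by omega
          have e2 : jM M = c := by simp only [hjM]; omega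
          rw [e2]
          nth_rewrite 1 [e1]
          rw [sum_eq, sub_self, norm_zero]
          exact norm_nonneg _
        · have e1 : M = 2 * K + 2 * c + 1 := by omega
          have e2 : jM M = c := by simp only [hjM]; omega
          rw [e2]
          nth_rewrite 1 [e1]
          rw [Finset.sum_range_succ, sum_eq, add_sub_cancel_left, show M - 1 = 2 * K + 2 * c by omega,
            norm_smul]
          have : ‖eps a b K (2 * K + 2 * c)‖ ≤ 1 := by
            rcases eps_01 a b K (2 * K + 2 * c) with h | h <;> rw [h] <;> simp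
          nlinarith [norm_nonneg (vec (2 * K + 2 * c))]
      · exact vec_tendsto.comp (tendsto_sub_atTop_nat 1)
    have := h2.add h1
    simpa using this
  refine (hQ.comp (tendsto_add_atTop_nat 1)).congr fun N => ?_
  exact (sum_Icc _ N).symm

end Pool.Agent.Results.MP_51e3e3_an.AchievementPlane
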